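import Pool.Agent.H31.FL4

open Pool.Agent.H31.FL

universe u v

theorem Pool.Agent.Results.MP_7eb7a8_an.Main.result
    {X : Type u} {L : Type v} [TopologicalSpace X] [T35Space X]
    [AddCommGroup L] [Module ℝ L] [TopologicalSpace L] [IsTopologicalAddGroup L]
    [ContinuousSMul ℝ L] [LocallyConvexSpace ℝ L] [T2Space L] (δ : X → L) (hδ : IsFreeLCS δ)
    (h : MultiHilbert L) : Nuclear L :=
  nuclear_of_mh hδ h
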